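import Pool.Agent.Work.MP_c71557_gt.Q.Defs
import Pool.Agent.Work.MP_c71557_gt.H.QA
import Pool.Agent.Work.MP_c71557_gt.H.ActDir
import Pool.Agent.Work.MP_c71557_gt.P.Shrink

set_option autoImplicit false
set_option linter.unusedVariables false

/-!
# MP_c71557_gt, module Q/Ov: squares and open convex sets
-/

noncomputable section

namespace C715

open Ang CategoryTheory
open scoped Topology

private theorem one_mem' (S : Set P2) (a b : FGr) (h : b = a⁻¹) : a * b ∈ NfS S := by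
  subst h
  rw [mul_inv_cancel]
  exact Subgroup.one_mem _

/-- an open set is preserved -/
private theorem gu_maps {U : Set P2} {r : Equiv.Perm P2} (h : r ∈ GU U) {x : P2} (hx : x ∈ U) :
    r⁻¹ x ∈ U := by
  obtain ⟨_, K, hKU, _, h1⟩ := (GU U).inv_mem h
  by_contra hc
  have h2 : r⁻¹ (r⁻¹ x) = r⁻¹ x := h1 _ fun hk => hc (hKU hk)
  rw [(r⁻¹).injective h2] at hc
  exact hc hx

theorem vfX_hiso : HIso vfX := by
  refine quillenA_over vfX fun b => ?_
  obtain ⟨⟨S, hS⟩⟩ := b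
  rcases hS with ⟨a0, rfl⟩ | ⟨hU, hc, q, hq⟩
  · refine ActCat.acy_over_top (A := Vf) (A' := XS) (fun a => ⟨a.set, Or.inl ⟨a, rfl⟩⟩)
      (fun h => h) (fun h => h) _ a0 1 ⟨Gf.one_mem, fun _ h => h⟩ ?_ ?_
    · intro a g hg
      refine ⟨g, hg, ?_⟩
      rw [one_mul, inv_mul_cancel]
      exact Subgroup.one_mem _
    · intro a k k' _ _ h
      exact h
  · refine ActCat.acy_over (A := Vf) (A' := XS) (fun a => ⟨a.set, Or.inl ⟨a, rfl⟩⟩)
      (fun h => h) (fun h => h) _ ?_ ?_ ?_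
    · obtain ⟨s, hs, hb⟩ := Metric.isOpen_iff.1 hU q hq
      refine ⟨⟨(q, s / 2), half_pos hs⟩, 1, Gf.one_mem, fun x hx => hb ?_⟩
      exact Metric.closedBall_subset_ball (half_lt_self hs) hx
    · intro a1 g1 a2 g2 h1 h2
      have hc1 : IsCompact (g1.g '' a1.set) := (isCompact_closedBall _ _).image (Gf_cont h1.1)
      have hc2 : IsCompact (g2.g '' a2.set) := (isCompact_closedBall _ _).image (Gf_cont h2.1)
      have hK : g1.g '' a1.set ∪ g2.g '' a2.set ⊆ S := by
        rintro x (⟨y, hy, rfl⟩ | ⟨y, hy, rfl⟩)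
        · exact h1.2 hy
        · exact h2.2 hy
      obtain ⟨s, hs, hb⟩ := Metric.isOpen_iff.1 hU q hq
      obtain ⟨r, hr, hrx⟩ := shrink_ball S _ hU hc (hc1.union hc2) hK q hq (s / 2) (half_pos hs)
      have hrG : r ∈ Gc := hr.1
      refine ⟨⟨(q, s / 2), half_pos hs⟩, (gfl ⟨r, hrG⟩)⁻¹, gfl ⟨r, hrG⟩ * g1, gfl ⟨r, hrG⟩ * g2,
        ⟨Gf.inv_mem (gfl_mem _), fun x hx => ?_⟩, ⟨Gf.mul_mem (gfl_mem _) h1.1, fun x hx => ?_⟩,
        ⟨Gf.mul_mem (gfl_mem _) h2.1, fun x hx => ?_⟩, ?_, ?_⟩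
      · exact gu_maps hr (hb (Metric.closedBall_subset_ball (half_lt_self hs) hx))
      · exact Metric.ball_subset_closedBall (hrx _ (Or.inl ⟨x, hx, rfl⟩))
      · exact Metric.ball_subset_closedBall (hrx _ (Or.inr ⟨x, hx, rfl⟩))
      · rw [inv_mul_cancel_left, inv_mul_cancel]
        exact Subgroup.one_mem _
      · rw [inv_mul_cancel_left, inv_mul_cancel]
        exact Subgroup.one_mem _
    · intro a a' g k k' _ _ _ h
      exact h

theorem wsX_hiso : HIso wsX := by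
  refine quillenA_over wsX fun b => ?_
  obtain ⟨S⟩ := b
  have hI : IsOpen (interior S.1) ∧ Convex ℝ (interior S.1) ∧ (interior S.1).Nonempty := by
    refine ⟨isOpen_interior, ?_, ?_⟩
    · rcases S.2 with ⟨a0, h⟩ | ⟨hU, hc, hne⟩
      · rw [h]
        exact (convex_closedBall _ _).interior
      · exact hc.interior
    · rcases S.2 with ⟨a0, h⟩ | ⟨hU, hc, hne⟩
      · rw [h]
        refine ⟨a0.1.1, ?_⟩
        exact Metric.ball_subset_interior_closedBall (Metric.mem_ball_self a0.2)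
      · rw [hU.interior_eq]
        exact hne
  refine ActCat.acy_over_top (A := WS) (A' := XS) (fun U => ⟨U.1, Or.inr U.2⟩)
    (fun h => h) (fun h => h) _ ⟨interior S.1, hI⟩ 1 ⟨Gf.one_mem, fun x hx => interior_subset hx⟩ ?_ ?_
  · intro U g hg
    refine ⟨g, ⟨hg.1, fun x hx => ?_⟩, ?_⟩
    · have hs : Continuous g.g.symm := hg.1.1.2.cont
      have h1 : IsOpen (g.g.symm ⁻¹' U.1) := U.2.1.preimage hs
      have h2 : g.g.symm ⁻¹' U.1 ⊆ S.1 := by
        intro y hy
        have h3 := hg.2 hy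
        change g.g (g.g.symm y) ∈ S.1 at h3
        rwa [g.g.apply_symm_apply] at h3
      refine interior_maximal h2 h1 ?_
      change g.g.symm (g.g x) ∈ U.1
      rw [g.g.symm_apply_apply]
      exact hx
    · rw [one_mul, inv_mul_cancel]
      exact Subgroup.one_mem _
  · intro a k k' _ _ h
    exact h

end C715
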