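import Pool.Agent.Work.MP_c71557_gt.C.DefsK

set_option autoImplicit false
set_option linter.unusedVariables false

/-!
# MP_c71557_gt, module Q/Ref: refinement

For `a ∈ Gf`, a set `U` and a finite set of lines `A'` there is a finite set of lines `A` with
`CellMap U A a.g A'`.  (As in C/Ref, without homogeneity.)
-/

noncomputable section

namespace C715

open Ang CategoryTheory
open scoped Topology

private theorem refA_conn {φ : P2 → ℝ} (hφ : Continuous φ) {T : Set L3} (hT : T.Finite)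
    {C : Set P2} (hC : _root_.IsPreconnected C) (h : ∀ y ∈ C, ∃ l ∈ T, φ y = l.ev y)
    (hd : ∀ l ∈ T, ∀ l' ∈ T, ∀ y ∈ C, ∀ z ∈ C, l.ev y = l'.ev y → l.ev z = l'.ev z)
    {l : L3} (hl : l ∈ T) {x : P2} (hx : x ∈ C) (hxl : φ x = l.ev x) :
    ∀ y ∈ C, φ y = l.ev y := by
  have hev : ∀ m : L3, Continuous m.ev := by
    intro m
    unfold L3.ev
    fun_prop
  let P : Set P2 := {y | φ y = l.ev y}
  let T' : Set L3 := {m | m ∈ T ∧ m.ev x ≠ l.ev x}
  let Q : Set P2 := ⋃ m ∈ T', {y | φ y = m.ev y}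
  have hP : IsClosed P := isClosed_eq hφ (hev l)
  have hT' : T'.Finite := hT.subset fun m hm => hm.1
  have hQ : IsClosed Q := hT'.isClosed_biUnion fun m _ => isClosed_eq hφ (hev m)
  have hcov : C ⊆ P ∪ Q := by
    intro y hy
    obtain ⟨m, hm, hym⟩ := h y hy
    by_cases he : m.ev x = l.ev x
    · left
      change φ y = l.ev y
      rw [hym]
      exact hd m hm l hl x hx y hy he
    · right
      exact Set.mem_biUnion (show m ∈ T' from ⟨hm, he⟩) hym
  by_contra hcon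
  push Not at hcon
  obtain ⟨y, hy, hyl⟩ := hcon
  have hyQ : y ∈ Q := (hcov hy).resolve_left hyl
  obtain ⟨z, hzC, hzP, hzQ⟩ := isPreconnected_closed_iff.1 hC P Q hP hQ hcov ⟨x, hx, hxl⟩
    ⟨y, hy, hyQ⟩
  obtain ⟨m, hm, hzm⟩ := Set.mem_iUnion₂.1 hzQ
  have h1 : m.ev z = l.ev z := by
    have e1 : φ z = m.ev z := hzm
    have e2 : φ z = l.ev z := hzP
    rw [← e1, e2]
  exact hm.2 (hd m hm.1 l hl z hzC x hx h1)

private theorem refA_cell_convex (A : Finset Ln) (x : P2) : Convex ℝ (cell Set.univ A x) := by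
  intro y hy z hz a b ha hb hab
  refine ⟨trivial, fun l hl => ?_⟩
  have h1 := hy.2 l hl
  have h2 := hz.2 l hl
  have e : l.ev (a • y + b • z) = a * l.ev y + b * l.ev z := by
    simp only [Ln.ev, Prod.fst_add, Prod.snd_add, Prod.smul_fst, Prod.smul_snd, smul_eq_mul]
    linear_combination (-l.c) * hab
  rw [e]
  rcases lt_trichotomy (l.ev x) 0 with h | h | h
  · rw [sign_neg h] at h1 h2 ⊢
    have h3 := sign_eq_neg_one_iff.1 h1.symm
    have h4 := sign_eq_neg_one_iff.1 h2.symm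
    symm
    rw [sign_eq_neg_one_iff]
    rcases ha.eq_or_lt with h5 | h5
    · have hb1 : b = 1 := by linarith
      rw [← h5, hb1]
      linarith
    · have h6 : a * l.ev y < 0 := mul_neg_of_pos_of_neg h5 h3
      have h7 : b * l.ev z ≤ 0 := mul_nonpos_of_nonneg_of_nonpos hb h4.le
      linarith
  · rw [h, sign_zero] at h1 h2 ⊢
    rw [sign_eq_zero_iff.1 h1.symm, sign_eq_zero_iff.1 h2.symm, mul_zero, mul_zero, add_zero,
      sign_zero]
  · rw [sign_pos h] at h1 h2 ⊢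
    have h3 := sign_eq_one_iff.1 h1.symm
    have h4 := sign_eq_one_iff.1 h2.symm
    symm
    rw [sign_eq_one_iff]
    rcases ha.eq_or_lt with h5 | h5
    · have hb1 : b = 1 := by linarith
      rw [← h5, hb1]
      linarith
    · have h6 : 0 < a * l.ev y := mul_pos h5 h3
      have h7 : 0 ≤ b * l.ev z := mul_nonneg hb h4.le
      linarith

theorem exists_refA {a : FGr} (ha : a ∈ Gf) (U : Set P2) (A' : Finset Ln) :
    ∃ A : Finset Ln, CellMap U A a.g A' := by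
  classical
  obtain ⟨⟨⟨hc1, T1, hT1, k1⟩, ⟨hc2, T2, hT2, k2⟩⟩, -⟩ := Gf_PLH ha
  let D : Set L3 :=
    ((fun p : L3 × L3 => (⟨p.1.a - p.2.a, p.1.b - p.2.b, p.1.c - p.2.c⟩ : L3)) '' (T1 ×ˢ T1)) ∪
    ((fun p : L3 × L3 => (⟨p.1.a - p.2.a, p.1.b - p.2.b, p.1.c - p.2.c⟩ : L3)) '' (T2 ×ˢ T2)) ∪
    ((fun p : Ln × L3 × L3 => (⟨p.1.a * p.2.1.a + p.1.b * p.2.2.a,
      p.1.a * p.2.1.b + p.1.b * p.2.2.b, p.1.a * p.2.1.c + p.1.b * p.2.2.c + p.1.c⟩ : L3)) ''
      ((A' : Set Ln) ×ˢ T1 ×ˢ T2))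
  have hD : D.Finite := (((hT1.prod hT1).image _).union ((hT2.prod hT2).image _)).union
    ((A'.finite_toSet.prod (hT1.prod hT2)).image _)
  let f : Ln → L3 := fun l => ⟨l.a, l.b, l.c⟩
  have hf : Function.Injective f := by
    intro l l' h
    have e1 : l.a = l'.a := congrArg L3.a h
    have e2 : l.b = l'.b := congrArg L3.b h
    have e3 : l.c = l'.c := congrArg L3.c h
    exact Ln.ext e1 e2 e3
  have hAf : (f ⁻¹' D).Finite := hD.preimage hf.injOn
  let A : Finset Ln := hAf.toFinset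
  have hA : ∀ l : Ln, l ∈ A ↔ f l ∈ D := by
    intro l
    rw [Set.Finite.mem_toFinset]
    exact Iff.rfl
  have hsgn : ∀ p ∈ D, ∀ x y : P2, Same A x y →
      SignType.sign (p.ev x) = SignType.sign (p.ev y) := by
    intro p hp x y hxy
    by_cases hne : p.a ≠ 0 ∨ p.b ≠ 0
    · exact hxy ⟨p.a, p.b, p.c, hne⟩ ((hA _).2 hp)
    · push Not at hne
      unfold L3.ev
      rw [hne.1, hne.2]
      simp
  have hdiff1 : ∀ l ∈ T1, ∀ l' ∈ T1, ∀ y z : P2, Same A y z → l.ev y = l'.ev y →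
      l.ev z = l'.ev z := by
    intro l hl l' hl' y z hyz he
    have hp : (⟨l.a - l'.a, l.b - l'.b, l.c - l'.c⟩ : L3) ∈ D :=
      Or.inl (Or.inl ⟨(l, l'), ⟨hl, hl'⟩, rfl⟩)
    have h3 := hsgn _ hp y z hyz
    have ev : ∀ w : P2, (⟨l.a - l'.a, l.b - l'.b, l.c - l'.c⟩ : L3).ev w = l.ev w - l'.ev w := by
      intro w
      simp only [L3.ev]
      ring
    rw [ev, ev, he, sub_self, sign_zero] at h3
    exact sub_eq_zero.1 (sign_eq_zero_iff.1 h3.symm)
  have hdiff2 : ∀ l ∈ T2, ∀ l' ∈ T2, ∀ y z : P2, Same A y z → l.ev y = l'.ev y →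
      l.ev z = l'.ev z := by
    intro l hl l' hl' y z hyz he
    have hp : (⟨l.a - l'.a, l.b - l'.b, l.c - l'.c⟩ : L3) ∈ D :=
      Or.inl (Or.inr ⟨(l, l'), ⟨hl, hl'⟩, rfl⟩)
    have h3 := hsgn _ hp y z hyz
    have ev : ∀ w : P2, (⟨l.a - l'.a, l.b - l'.b, l.c - l'.c⟩ : L3).ev w = l.ev w - l'.ev w := by
      intro w
      simp only [L3.ev]
      ring
    rw [ev, ev, he, sub_self, sign_zero] at h3
    exact sub_eq_zero.1 (sign_eq_zero_iff.1 h3.symm)
  -- the affine pieces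
  have main : ∀ x : P2, ∃ t1 ∈ T1, ∃ t2 ∈ T2, ∀ y ∈ cell Set.univ A x,
      a.g y = (t1.ev y, t2.ev y) := by
    intro x
    have hxC : x ∈ cell Set.univ A x := ⟨trivial, Same.refl A x⟩
    obtain ⟨t1, ht1, e1⟩ := k1 x
    obtain ⟨t2, ht2, e2⟩ := k2 x
    have hC : _root_.IsPreconnected (cell Set.univ A x) := (refA_cell_convex A x).isPreconnected
    have g1 := refA_conn (φ := fun x => (a.g x).1) hc1 hT1 hC (fun y _ => k1 y)
      (fun l hl l' hl' y hy z hz => hdiff1 l hl l' hl' y z (hy.2.symm.trans hz.2)) ht1 hxC e1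
    have g2 := refA_conn (φ := fun x => (a.g x).2) hc2 hT2 hC (fun y _ => k2 y)
      (fun l hl l' hl' y hy z hz => hdiff2 l hl l' hl' y z (hy.2.symm.trans hz.2)) ht2 hxC e2
    exact ⟨t1, ht1, t2, ht2, fun y hy => Prod.ext (g1 y hy) (g2 y hy)⟩
  refine ⟨A, CellMap.sub (U := Set.univ) ⟨?_, ?_⟩ (Set.subset_univ U)⟩
  · intro x _ y _ hxy l hl
    obtain ⟨t1, ht1, t2, ht2, hg⟩ := main x
    have ex := hg x ⟨trivial, Same.refl A x⟩
    have ey := hg y ⟨trivial, hxy⟩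
    have hp : (⟨l.a * t1.a + l.b * t2.a, l.a * t1.b + l.b * t2.b,
        l.a * t1.c + l.b * t2.c + l.c⟩ : L3) ∈ D :=
      Or.inr ⟨(l, t1, t2), ⟨hl, ht1, ht2⟩, rfl⟩
    have h3 := hsgn _ hp x y hxy
    have ev : ∀ z : P2, l.ev (t1.ev z, t2.ev z) = (⟨l.a * t1.a + l.b * t2.a,
        l.a * t1.b + l.b * t2.b, l.a * t1.c + l.b * t2.c + l.c⟩ : L3).ev z := by
      intro z
      simp only [Ln.ev, L3.ev]
      ring
    rw [ex, ey, ev, ev]
    exact h3
  · intro x _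
    obtain ⟨t1, _, t2, _, hg⟩ := main x
    exact ⟨t1, t2, hg⟩

end C715
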