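import Pool.Agent.Work.MP_c71557_gt.Q.Defs
import Pool.Agent.Work.MP_c71557_gt.Q.Ref
import Pool.Agent.Work.MP_c71557_gt.H.QA
import Pool.Agent.Work.MP_c71557_gt.H.ActDir

set_option autoImplicit false
set_option linter.unusedVariables false

/-!
# MP_c71557_gt, module Q/StW: forgetting the lines
-/

noncomputable section

namespace C715

open Ang CategoryTheory
open scoped Topology

theorem strW_hiso : HIso strW := by
  classical
  refine quillenA_under strW fun b => ?_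
  have key : ∀ (a : gPLf.Str.Ob) (g : FGr), WS.Adm b.o g (⟨a.1.1, a.2.1⟩ : WO) →
      ∃ B : Finset Ln, CellMap b.o.1 B g.g a.1.2 := fun a g h =>
    exists_refA h.1 b.o.1 a.1.2
  refine ActCat.acy_under (A := gPLf.Str) (A' := WS) (fun p => ⟨p.1.1, p.2.1⟩)
    (fun h => ⟨h.1, fun x hx => h.2.1 x hx⟩) (fun h => strN_iff.1 h)
    b.o ?_ ?_ ?_
  · exact ⟨⟨(b.o.1, ∅), b.o.2, fun l hl => absurd hl (Finset.notMem_empty l)⟩, 1, WS.one b.o⟩
  · intro a1 g1 a2 g2 h1 h2
    obtain ⟨B1, c1⟩ := key a1 g1 h1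
    obtain ⟨B2, c2⟩ := key a2 g2 h2
    refine ⟨⟨(b.o.1, B1 ∪ B2), b.o.2, fun l hl => trivial⟩, 1, g1, g2, WS.one b.o,
      ⟨h1.1, fun x hx => h1.2 hx, c1.mono Finset.subset_union_left⟩,
      ⟨h2.1, fun x hx => h2.2 hx, c2.mono Finset.subset_union_right⟩, ?_, ?_⟩
    · rw [mul_one, inv_mul_cancel]
      exact Subgroup.one_mem _
    · rw [mul_one, inv_mul_cancel]
      exact Subgroup.one_mem _
  · intro a a' g k k' hg hk hk' h
    obtain ⟨B, c⟩ := key a g hg
    refine ⟨⟨(b.o.1, B), b.o.2, fun l hl => trivial⟩, 1, g, WS.one b.o,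
      ⟨hg.1, fun x hx => hg.2 hx, c⟩, ?_, strN_iff.2 h⟩
    rw [mul_one, inv_mul_cancel]
    exact Subgroup.one_mem _

end C715
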