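import Pool.Agent.Work.MP_c71557_gt.Q.Sqs
import Pool.Agent.Work.MP_c71557_gt.Q.Ov
import Pool.Agent.Work.MP_c71557_gt.Q.StW

set_option autoImplicit false
set_option linter.unusedVariables false

/-!
# MP_c71557_gt, module Q/Cmp: the comparison

`Str gPLf → WS → XS ← Vf ← Vg → V0 A0 A0_wind`, all homology isomorphisms.
-/

noncomputable section

namespace C715

open Ang CategoryTheory
open scoped Topology

theorem cmp (n : ℕ) (h : Subsingleton (HC gPLf.Str.Obj n)) :
    Subsingleton (HC (V0 A0 A0_wind).Obj n) := by
  have h1 : Subsingleton (HC WS.Obj n) := (strW_hiso n).surjective.subsingleton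
  have h2 : Subsingleton (HC XS.Obj n) := (wsX_hiso n).surjective.subsingleton
  have h3 : Subsingleton (HC Vf.Obj n) := (vfX_hiso n).injective.subsingleton
  have h4 : Subsingleton (HC Vg.Obj n) := (vgF_hiso n).injective.subsingleton
  exact (vgV_hiso n).surjective.subsingleton

end C715
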