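import Pool.Agent.Work.MP_c71557_gt.K.Defs
import Pool.Agent.Work.MP_c71557_gt.H.Defs3

set_option autoImplicit false
set_option linter.unusedVariables false

/-!
# MP_c71557_gt, block Q (comparison): categories of framed germs along subsets of the plane

`SC s`: objects `i`, with subsets `s i` of the plane, arrows `i → j` the elements of `Gf` mapping
`s i` into `s j`, modulo those which are the identity near `s i` with framing `1` on `s i`.
`Vf`: closed squares, `XS`: closed squares and open convex sets, `WS`: open convex sets.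
`Vg`: closed squares, elements of `Gc`.
-/

noncomputable section

namespace C715

open Ang CategoryTheory
open scoped Topology

theorem Gf_cont {a : FGr} (h : a ∈ Gf) : Continuous a.g := h.1.1.cont

/-- framed germs of the identity near `S` -/
def NfS (S : Set P2) : Subgroup FGr where
  carrier := {a | a ∈ Gf ∧ (∀ᶠ x in 𝓝ˢ S, a.g x = x) ∧ ∀ x ∈ S, a.ph x = 1}
  mul_mem' := by
    rintro a b ⟨ha, h1, h2⟩ ⟨hb, h3, h4⟩
    refine ⟨Gf.mul_mem ha hb, ?_, fun x hx => ?_⟩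
    · filter_upwards [h1, h3] with x e1 e2
      rw [FGr.mul_g, Equiv.Perm.mul_apply, e2, e1]
    · have e : b.g x = x := (Filter.Eventually.self_of_nhdsSet h3) x hx
      rw [FGr.mul_ph, e, h2 x hx, h4 x hx, mul_one]
  one_mem' := ⟨Gf.one_mem, Filter.Eventually.of_forall fun _ => rfl, fun _ _ => rfl⟩
  inv_mem' := by
    rintro a ⟨ha, h1, h2⟩
    have h3 : ∀ᶠ x in 𝓝ˢ S, a⁻¹.g x = x := by
      filter_upwards [h1] with x e1
      rw [FGr.inv_g, Equiv.Perm.inv_eq_iff_eq, e1]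
    refine ⟨Gf.inv_mem ha, h3, fun x hx => ?_⟩
    have e : a.g⁻¹ x = x := (Filter.Eventually.self_of_nhdsSet h3) x hx
    rw [FGr.inv_ph, e, h2 x hx, inv_one]

theorem mem_NfS {S : Set P2} {a : FGr} :
    a ∈ NfS S ↔ a ∈ Gf ∧ (∀ᶠ x in 𝓝ˢ S, a.g x = x) ∧ ∀ x ∈ S, a.ph x = 1 := Iff.rfl

theorem NfS_maps {S : Set P2} {a : FGr} (h : a ∈ NfS S) : Set.MapsTo a.g S S := fun x hx => by
  have e : a.g x = x := (Filter.Eventually.self_of_nhdsSet h.2.1) x hx
  rw [e]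
  exact hx

theorem NfS_conj {S S' : Set P2} {g n : FGr} (hg : g ∈ Gf) (hS : Set.MapsTo g.g S S')
    (hn : n ∈ NfS S') : g⁻¹ * n * g ∈ NfS S := by
  refine ⟨Gf.mul_mem (Gf.mul_mem (Gf.inv_mem hg) hn.1) hg, ?_, fun x hx => ?_⟩
  · filter_upwards [(tendsto_nhdsSet_of_mapsTo (Gf_cont hg) hS).eventually hn.2.1] with x e1
    change g.g⁻¹ (n.g (g.g x)) = x
    rw [e1]
    exact g.g.symm_apply_apply x
  · have e1 : n.g (g.g x) = g.g x := (Filter.Eventually.self_of_nhdsSet hn.2.1) _ (hS hx)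
    have e2 : g.g⁻¹ (g.g x) = x := g.g.symm_apply_apply x
    rw [FGr.mul_ph, FGr.mul_ph, FGr.inv_ph, e1, e2, hn.2.2 _ (hS hx), mul_one, inv_mul_cancel]

/-- framed germs along the sets `s i` -/
def SC {ι : Type} (s : ι → Set P2) : ActCat FGr where
  Ob := ι
  Adm i a j := a ∈ Gf ∧ Set.MapsTo a.g (s i) (s j)
  N i := NfS (s i)
  one i := ⟨Gf.one_mem, fun _ h => h⟩
  mul := fun {a b c g h} hg hh => ⟨Gf.mul_mem hh.1 hg.1, fun x hx => hh.2 (hg.2 hx)⟩
  nAdm := fun {a n} h => ⟨h.1, NfS_maps h⟩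
  conj := fun {a b g n} hg hn => NfS_conj hg.1 hg.2 hn

theorem SC_thin {ι ι' : Type} {s : ι → Set P2} {s' : ι' → Set P2} (f : ι → ι')
    (hf : ∀ i, s' (f i) = s i) {i : ι} {k : FGr} (h : k ∈ (SC s').N (f i)) : k ∈ (SC s).N i := by
  change k ∈ NfS (s' (f i)) at h
  rwa [hf] at h

/-- functors between the categories `SC` -/
def scF {ι ι' : Type} (s : ι → Set P2) (s' : ι' → Set P2) (f : ι → ι')
    (hf : ∀ i, s' (f i) = s i) : (SC s).Obj ⥤ (SC s').Obj :=
  ActCat.idFun (A := SC s) (A' := SC s') f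
    (fun {a b g} h => ⟨h.1, by
      change Set.MapsTo g.g (s' (f a)) (s' (f b))
      rw [hf, hf]
      exact h.2⟩)
    (fun {a n} h => by
      change n ∈ NfS (s' (f a))
      rw [hf]
      exact h)

/-- closed squares -/
abbrev Vf : ActCat FGr := SC Sq.set

/-- open convex sets -/
abbrev WO : Type := {S : Set P2 // IsOpen S ∧ Convex ℝ S ∧ S.Nonempty}

/-- closed squares and open convex sets -/
abbrev XO : Type := {S : Set P2 // (∃ a : Sq, S = a.set) ∨ (IsOpen S ∧ Convex ℝ S ∧ S.Nonempty)}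

/-- open convex sets -/
abbrev WS : ActCat FGr := SC (fun S : WO => S.1)

/-- closed squares and open convex sets -/
abbrev XS : ActCat FGr := SC (fun S : XO => S.1)

/-- `Vf → XS` -/
def vfX : Vf.Obj ⥤ XS.Obj :=
  scF Sq.set (fun S : XO => S.1) (fun a => ⟨a.set, Or.inl ⟨a, rfl⟩⟩) (fun _ => rfl)

/-- `WS → XS` -/
def wsX : WS.Obj ⥤ XS.Obj :=
  scF (fun S : WO => S.1) (fun S : XO => S.1) (fun U => ⟨U.1, Or.inr U.2⟩) (fun _ => rfl)

/-- closed squares, elements of `Gc`, framed germs -/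
def Vg : ActCat ↥Gc where
  Ob := Sq
  Adm a g b := Set.MapsTo g.1 a.set b.set
  N a := (A0 a.set).subgroupOf Gc
  one a := fun _ h => h
  mul := fun {a b c g h} hg hh x hx => hh (hg hx)
  nAdm := fun {a n} h => (A0_wind.adm (a := a) (n := n.1) h).2
  conj := fun {a b g n} hg hn => A0_wind.conj a b g.1 n.1 g.2 hg hn

/-- `Vg → V0` -/
def vgV : Vg.Obj ⥤ (V0 A0 A0_wind).Obj :=
  ActCat.functor (A := Vg) (A' := V0 A0 A0_wind) (fun a => a) Gc.subtype
    (fun {a b g} h => ⟨g.2, h⟩) (fun {a n} h => h)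

theorem gfl_NfS {S : Set P2} {n : ↥Gc} : gfl n ∈ NfS S ↔ n.1 ∈ A0 S := by
  rw [mem_A0 n.2]
  exact ⟨fun h => h.2, fun h => ⟨gfl_mem n, h⟩⟩

/-- `Vg → Vf` -/
def vgF : Vg.Obj ⥤ Vf.Obj :=
  ActCat.functor (A := Vg) (A' := Vf) (fun a => a) gfl
    (fun {a b g} h => ⟨gfl_mem g, h⟩) (fun {a n} h => gfl_NfS.2 h)

theorem strN_iff {p : gPLf.Str.Ob} {a : FGr} : a ∈ gPLf.Str.N p ↔ a ∈ NfS p.1.1 := by
  constructor
  · rintro ⟨ha, h⟩
    refine ⟨ha, ?_, fun x hx => (h x hx).2⟩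
    filter_upwards [(gPLf.Ob_open p).mem_nhdsSet_self] with x hx
    exact (h x hx).1
  · rintro ⟨ha, h1, h2⟩
    exact ⟨ha, fun x hx => ⟨(Filter.Eventually.self_of_nhdsSet h1) x hx, h2 x hx⟩⟩

/-- `Str gPLf → WS`: forget the lines -/
def strW : gPLf.Str.Obj ⥤ WS.Obj :=
  ActCat.idFun (A := gPLf.Str) (A' := WS) (fun p => ⟨p.1.1, p.2.1⟩)
    (fun {p q a} h => ⟨h.1, fun x hx => h.2.1 x hx⟩) (fun {p n} h => strN_iff.1 h)

end C715
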