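import Pool.Agent.Work.MP_c71557_gt.Q.Defs
import Pool.Agent.Work.MP_c71557_gt.A.ActFF

set_option autoImplicit false
set_option linter.unusedVariables false

/-!
# MP_c71557_gt, module Q/Sqs: squares, `Gc` and `Gf`
-/

noncomputable section

namespace C715

open Ang CategoryTheory
open scoped Topology

theorem vgV_hiso : HIso vgV := by
  refine ActCat.hiso_functor (A := Vg) (A' := V0 A0 A0_wind) (fun a => a) Gc.subtype
    (fun {a b g} h => ⟨g.2, h⟩) (fun {a n} h => h) ?_ ?_ ?_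
  · rintro a b g' ⟨hg, hm⟩
    refine ⟨⟨g', hg⟩, hm, ?_⟩
    change g'⁻¹ * g' ∈ _
    rw [inv_mul_cancel]
    exact Subgroup.one_mem _
  · intro a b g g' _ _ h
    exact h
  · intro b
    refine ⟨b, 1, ⟨Gc.one_mem, fun _ h => h⟩, ?_⟩
    rw [inv_one]
    exact ⟨Gc.one_mem, fun _ h => h⟩

theorem Sq_norm (a : Sq) : ∃ R : ℝ, ∀ x ∈ a.set, ‖x‖ ≤ R := by
  obtain ⟨R, hR⟩ := (isCompact_closedBall a.1.1 a.1.2).isBounded.subset_closedBall (0 : P2)
  refine ⟨R, fun x hx => ?_⟩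
  have h := hR hx
  rwa [Metric.mem_closedBall, dist_zero_right] at h

theorem vgF_hiso : HIso vgF := by
  refine ActCat.hiso_functor (A := Vg) (A' := Vf) (fun a => a) gfl
    (fun {a b g} h => ⟨gfl_mem g, h⟩) (fun {a n} h => gfl_NfS.2 h) ?_ ?_ ?_
  · rintro a b c ⟨hc, hm⟩
    obtain ⟨R, hR⟩ := Sq_norm a
    obtain ⟨g, hg⟩ := hc.2 (R + 1)
    have h1 : ∀ x : P2, ‖x‖ ≤ R + 1 → ((gfl g)⁻¹ * c).g x = x := by
      intro x hx
      change g.1⁻¹ (c.g x) = x
      rw [(hg x hx).1]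
      exact g.1.symm_apply_apply x
    refine ⟨g, fun x hx => ?_, ?_, ?_, fun x hx => ?_⟩
    · have e := (hg x ((hR x hx).trans (le_add_of_nonneg_right zero_le_one))).1
      rw [← e]
      exact hm hx
    · exact Gf.mul_mem (Gf.inv_mem (gfl_mem g)) hc
    · have h2 : Metric.ball (0 : P2) (R + 1) ∈ 𝓝ˢ (Sq.set a) := by
        refine Metric.isOpen_ball.mem_nhdsSet.2 fun x hx => ?_
        rw [Metric.mem_ball, dist_zero_right]
        exact lt_of_le_of_lt (hR x hx) (lt_add_one R)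
      filter_upwards [h2] with x hx
      rw [Metric.mem_ball, dist_zero_right] at hx
      exact h1 x hx.le
    · have h3 : ‖x‖ ≤ R + 1 := (hR x hx).trans (le_add_of_nonneg_right zero_le_one)
      obtain ⟨e1, e2⟩ := hg x h3
      have e3 : g.1⁻¹ (c.g x) = x := h1 x h3
      rw [FGr.mul_ph, FGr.inv_ph, gfl_g, e3, gfl_ph, e2, inv_mul_cancel]
  · intro a b g g' _ _ h
    exact gfl_NfS.1 h
  · intro b
    refine ⟨b, 1, ⟨Gf.one_mem, fun _ h => h⟩, ?_⟩
    rw [inv_one]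
    exact ⟨Gf.one_mem, fun _ h => h⟩

end C715
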